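import Pool.Agent.helper69.DH.SpecR2

/-!
# Project d2: (MP_5823cb_al), part R: row rMXI: the discrete mixing
-/

set_option autoImplicit false

open Filter Topology MeasureTheory
open scoped commutatorElement

namespace Pool.Agent.helper90.DH

open Pool.Agent.helper64.D2

theorem rMXI (hMIX : MIX_stmt) (hNIM : rNIM_stmt) (hMXE : rMXE_stmt) (hMXD : rMXD_stmt) (hCON : rCON_stmt) : rMXI_stmt := by
  intro K0 a hK0
  obtain ⟨K, hK, hmix⟩ := hMIX
  obtain ⟨w1, hw1⟩ := hCON K K0 a hK hK0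
  refine ⟨w1, ?_⟩
  intro w0 hw0 P s0 s h10 hs hq hell hd1 hNI hGAP
  obtain ⟨-, h30, hlam, hnum⟩ := hw1 w0 hw0
  have hs300 : 300 ≤ s := by omega
  have hs0300 : 300 ≤ s0 := by omega
  have hells0 : P.ell ≤ s0 := by omega
  have hell1 : 1 ≤ P.ell := by omega
  have hse : 34 ≤ s - P.ell := by omega
  have hs0e : s0 - P.ell = w0 + 4 := by omega
  intro A B hA hwin
  -- small numbers
  have hps : (0 : ℝ) < 2 ^ s := by positivity
  have h7 : (7 : ℝ) / 2 ^ s ≤ 1 / 100 := by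
    rw [div_le_div_iff₀ hps (by norm_num)]
    have h1 : (2 : ℝ) ^ 10 ≤ 2 ^ s := pow_le_pow_right₀ (by norm_num) (by omega)
    norm_num at h1 ⊢
    linarith
  have hdisp : (2 : ℝ) ^ (w0 + 3) / 2 ^ s0 = 1 / 2 ^ (P.ell + 1) := by
    have e1 : s0 = (w0 + 3) + (P.ell + 1) := by omega
    rw [e1, pow_add 2 (w0 + 3)]
    field_simp
  have hdisp2 : (1 : ℝ) / 2 ^ (P.ell + 1) ≤ 1 / 100 := by
    apply one_div_le_one_div_of_le (by norm_num)
    have h1 : (2 : ℝ) ^ 10 ≤ 2 ^ (P.ell + 1) := pow_le_pow_right₀ (by norm_num) (by omega)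
    norm_num at h1 ⊢
    linarith
  -- the maps
  have hSz : ∀ i < P.q, Sz (P.cm s i) (1 / 100) := by
    intro i hi x
    exact ((hNI i hi).1 x).trans (by norm_num)
  have hMA : ∀ i < P.q, rMA P s i := by
    intro i hi
    obtain ⟨h1, h2⟩ := hNI i hi
    obtain ⟨h3, h4, -⟩ := hNIM (P.cm s i) h1
    rw [hdisp] at h2
    refine ⟨fun x y => ⟨(h3 x y).1.trans ?_, (h3 x y).2⟩, fun x => ⟨h2 x, h4 _ h2 x⟩⟩
    gcongr <;> norm_num
  have hNI2 : NI P.q (P.cm s) (1 / 100) (1 / 100) := by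
    intro i hi
    refine ⟨hSz i hi, fun x => ((hNI i hi).2 x).trans ?_⟩
    rw [hdisp]
    exact hdisp2
  -- the cells
  have hcell : ∀ k ∈ rpl A, cell s k ⊆ Set.Icc (1 / 4 : ℝ) (3 / 4) := by
    intro k hk x hx
    unfold rpl at hk
    rw [Finset.mem_biUnion] at hk
    obtain ⟨n, hn, hkn⟩ := hk
    rw [Finset.mem_Icc] at hkn
    have h1 := hA n hn
    unfold rlp at h1
    rw [abs_le] at h1
    obtain ⟨h2, h3⟩ := hx
    have h4 : ((n : ℝ) - 6) / 2 ^ s ≤ (k : ℝ) / 2 ^ s := by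
      gcongr
      have : n - 6 ≤ k := hkn.1
      exact_mod_cast this
    have h5 : ((k : ℝ) + 1) / 2 ^ s ≤ ((n : ℝ) + 7) / 2 ^ s := by
      have h51 : k + 1 ≤ n + 7 := by omega
      have h52 : (k : ℝ) + 1 ≤ (n : ℝ) + 7 := by exact_mod_cast h51
      exact div_le_div_of_nonneg_right h52 hps.le
    have h6 : ((n : ℝ) - 6) / 2 ^ s = (n : ℝ) / 2 ^ s - 6 / 2 ^ s := by ring
    have h8 : ((n : ℝ) + 7) / 2 ^ s = (n : ℝ) / 2 ^ s + 7 / 2 ^ s := by ring
    have h9 : (6 : ℝ) / 2 ^ s ≤ 7 / 2 ^ s := by gcongr; norm_num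
    constructor
    · linarith [h1.1]
    · linarith [h1.2]
  -- the density
  have h6 : 6 ≤ 2 ^ (s - P.ell) := by
    have h1 : 2 ^ 3 ≤ 2 ^ (s - P.ell) := Nat.pow_le_pow_right (by norm_num) (by omega)
    norm_num at h1
    omega
  set den : ℝ := 39 * (2 ^ 10 * (2 ^ (3 * a * LL w0) / 2 ^ (2 * w0)) * 2 ^ (w0 + 4)) with hden
  have hden0 : 0 ≤ den := by positivity
  have hdens : ∀ k : ℤ, volume.real (UC s (rpl A) ∩ cell s0 k) ≤ den / 2 ^ s0 := by
    intro k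
    refine (hMXD P.ell s0 s A (2 ^ 10 * P.d1 * 2 ^ (s - P.ell)) hells0 hs (by exact_mod_cast h6) hwin k).trans (le_of_eq ?_)
    rw [hd1, hden]
    have e1 : (2 : ℝ) ^ s = 2 ^ (s - P.ell) * 2 ^ P.ell := by
      rw [← pow_add]
      congr 1
      omega
    have e2 : (2 : ℝ) ^ s0 = 2 ^ (w0 + 4) * 2 ^ P.ell := by
      rw [← pow_add]
      congr 1
      omega
    rw [e1, e2]
    field_simp
  set lam : ℝ := K0 / 2 ^ w0 with hlamdef
  have hlam0 : 0 < lam := by positivity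
  have hM := hmix lam den P.q (P.cm s) s0 s hlam0 hlam hden0 (by omega) hq hNI2 hGAP (rpl A) s hs le_rfl hcell hdens
  have hlog : 0 ≤ Real.log (1 / lam) := by
    apply Real.log_nonneg
    rw [le_div_iff₀ hlam0]
    linarith
  have hK0' : 0 ≤ K := by linarith
  have hLam0 : 0 ≤ K * lam ^ 2 * (1 + Real.log (1 / lam)) + K * den := by positivity
  have hE := hMXE P s A B _ hq hell1 (fun i hi => ⟨hMA i hi, hSz i hi⟩) hLam0 hcell hM
  refine hE.trans ?_
  have hAc : (0 : ℝ) ≤ A.card := by positivity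
  have hBc : (0 : ℝ) ≤ B.card := by positivity
  have hqq : (0 : ℝ) ≤ (P.q : ℝ) ^ 2 := by positivity
  calc (P.q : ℝ) ^ 2 * B.card * (13 * (K * lam ^ 2 * (1 + Real.log (1 / lam)) + K * den) * A.card)
      = ((P.q : ℝ) ^ 2 * B.card * A.card) * (13 * (K * lam ^ 2 * (1 + Real.log (1 / lam)) + K * den)) := by ring
    _ ≤ ((P.q : ℝ) ^ 2 * B.card * A.card) * (1 / 2 ^ 104) := by gcongr
    _ = _ := by ring

end Pool.Agent.helper90.DH
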