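import Pool.Agent.helper69.DH.SpecR

/-!
# Project d2: (MP_5823cb_al), part R: row rREF: a rule implies the enlarged rule for subcells
-/

set_option autoImplicit false

open Filter Topology MeasureTheory
open scoped commutatorElement

namespace Pool.Agent.helper90.DH

open Pool.Agent.helper64.D2

theorem rREF (hBAS : rBAS_stmt) (hGEO : rGEO_stmt) (hTRF : rTRF_stmt) : rREF_stmt := by
  classical
  intro P S hRHY s t H K m hs0 hts hsS
  have h216 : 216 ≤ t := hRHY.1.2.2.2.1.trans hs0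
  have hpt : (0 : ℝ) < 2 ^ t := by positivity
  obtain ⟨-, -, hb3, -⟩ := hBAS
  obtain ⟨hb31, hb32⟩ := hb3 s t m hts
  have hd : |rlp s m - rlp t (m / 2 ^ (s - t))| ≤ 1 / 2 ^ t := by
    rw [abs_le]
    constructor
    · have : 0 ≤ 1 / (2 : ℝ) ^ t := by positivity
      linarith
    · linarith
  have h13 : (1 : ℝ) / 2 ^ t ≤ 3 / 2 ^ t := by gcongr; norm_num
  have hsmall : (3 : ℝ) / 2 ^ t ≤ 1 / 100 := by
    rw [div_le_div_iff₀ hpt (by norm_num)]
    have h1 : (2 : ℝ) ^ 9 ≤ 2 ^ t := pow_le_pow_right₀ (by norm_num) (by omega)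
    norm_num at h1 ⊢
    linarith
  set m' := m / 2 ^ (s - t) with hm'
  obtain ⟨hG1, -⟩ := hGEO P S hRHY
  have hgeo : ∀ i < P.q, |rlp s (rcc P s i m) - rlp t (rcc P t i m')| ≤ 3 / 2 ^ t ∧ |rlp s (rbb P s i m) - rlp t (rbb P t i m')| ≤ 3 / 2 ^ t := by
    intro i hi
    obtain ⟨h1, h2⟩ := hG1 s t i m m' 1 hs0 hts hsS hi zero_le_one hd
    have h3 : ((1 : ℝ) + 1 + (1 + 1) / 2 ^ 27) / 2 ^ t ≤ 3 / 2 ^ t := by
      gcongr
      norm_num
    exact ⟨h1.trans h3, h2.trans h3⟩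
  have htr := hTRF P S hRHY s t
  refine ⟨?_, ?_, ?_⟩
  · -- T2
    intro h
    unfold rT2 at h ⊢
    refine h.trans (Finset.card_le_card ?_)
    intro r hr
    unfold rAc at hr ⊢
    rw [Finset.mem_filter, Finset.mem_range] at hr ⊢
    obtain ⟨hr1, n, hn, hr2⟩ := hr
    refine ⟨by omega, n, hn, ?_⟩
    have hrt : (2 : ℝ) ^ r ≤ 2 ^ t := pow_le_pow_right₀ (by norm_num) (by omega)
    have hpr : (0 : ℝ) < 2 ^ r := by positivity
    have h1 : |2 ^ r * rlp s m - 2 ^ r * rlp t m'| ≤ 1 := by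
      rw [← mul_sub, abs_mul, abs_of_pos hpr]
      calc (2 : ℝ) ^ r * |rlp s m - rlp t m'| ≤ 2 ^ t * (1 / 2 ^ t) := by gcongr
        _ = 1 := by field_simp
    calc |2 ^ r * rlp s m - (n : ℝ)| = |(2 ^ r * rlp s m - 2 ^ r * rlp t m') + (2 ^ r * rlp t m' - n)| := by ring_nf
      _ ≤ |2 ^ r * rlp s m - 2 ^ r * rlp t m'| + |2 ^ r * rlp t m' - n| := abs_add_le _ _
      _ ≤ 1 + rrh 0 := add_le_add h1 hr2
      _ ≤ rrh 1 := by unfold rrh; norm_num
  · -- T3
    intro h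
    unfold rT3 at h ⊢
    refine lt_of_lt_of_le h ?_
    have h1 : rdg P K 0 t m' ≤ rdg P K 1 s m := (htr K m m' hs0 hts hsS (hd.trans h13)).2.1
    have h2 : ∑ i ∈ (Finset.range P.q).filter (fun i => |rlp t (rcc P t i m') - 1 / 2| ≤ (22 + ((0 : ℕ) : ℝ)) / 100), rhp P H 0 t (rcc P t i m') ≤
        ∑ i ∈ (Finset.range P.q).filter (fun i => |rlp s (rcc P s i m) - 1 / 2| ≤ (22 + ((1 : ℕ) : ℝ)) / 100), rhp P H 1 s (rcc P s i m) := by
      refine (Finset.sum_le_sum (g := fun i => rhp P H 1 s (rcc P s i m)) fun i hi => ?_).trans (Finset.sum_le_sum_of_subset ?_)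
      · rw [Finset.mem_filter, Finset.mem_range] at hi
        exact (htr H (rcc P s i m) (rcc P t i m') hs0 hts hsS (hgeo i hi.1).1).1
      · intro i hi
        rw [Finset.mem_filter, Finset.mem_range] at hi ⊢
        refine ⟨hi.1, ?_⟩
        have h3 := (hgeo i hi.1).1
        have h4 := hi.2
        rw [abs_le] at h3 h4 ⊢
        push_cast at h4 ⊢
        constructor
        · linarith [h3.1, h4.1]
        · linarith [h3.2, h4.2]
    gcongr
  · -- CR
    intro h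
    unfold rCR at h ⊢
    refine h.trans (Nat.mul_le_mul_left _ (Finset.card_le_card ?_))
    intro k hk
    rw [Finset.mem_filter, Finset.mem_range] at hk ⊢
    obtain ⟨hk1, hk2⟩ := hk
    refine ⟨hk1, ?_⟩
    rcases hk2 with h1 | h1
    · left
      exact (htr H (rbb P s k m) (rbb P t k m') hs0 hts hsS (hgeo k hk1).2).2.2 h1
    · right
      exact h1.trans (Nat.mul_le_mul_left _ (htr K (rbb P s k m) (rbb P t k m') hs0 hts hsS (hgeo k hk1).2).2.1)

end Pool.Agent.helper90.DH
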